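import Pool.Agent.DiskPoly.Gauge

/-!
# Polyominoes which are closed disks, part 3: a decidable criterion

`DiskPoly.disk_of_chk`: if a list of cells (with a code for each cell) passes the test `chk`, then
the union of the closed unit squares is homeomorphic to the closed unit ball of the plane.
The list is read from the right: the last cell is the first square, and every other cell is attached
to the cells behind it along exactly one edge (codes 0 - 3) or along two edges at a corner whose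
diagonal cell is present (codes 4 - 7), and touches no other cell.
-/

set_option autoImplicit false

namespace DiskPoly

open Set Metric

/-- centre of a cell -/
noncomputable def ctr (p : ℤ × ℤ) : E := !₂[(p.1 : ℝ) + 1 / 2, (p.2 : ℝ) + 1 / 2]

theorem ctr0 (p : ℤ × ℤ) : ctr p 0 = (p.1 : ℝ) + 1 / 2 := rfl
theorem ctr1 (p : ℤ × ℤ) : ctr p 1 = (p.2 : ℝ) + 1 / 2 := rfl

/-- first coordinate of a frame -/
noncomputable def fu (sw : Bool) (e : ℤ) (p : ℤ × ℤ) (x : E) : ℝ :=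
  e * (if sw then x 1 - ((p.2 : ℝ) + 1 / 2) else x 0 - ((p.1 : ℝ) + 1 / 2))
/-- second coordinate of a frame -/
noncomputable def fv (sw : Bool) (e : ℤ) (p : ℤ × ℤ) (x : E) : ℝ :=
  e * (if sw then x 0 - ((p.1 : ℝ) + 1 / 2) else x 1 - ((p.2 : ℝ) + 1 / 2))
/-- first coordinate of a cell -/
def FI (sw : Bool) (e : ℤ) (p s : ℤ × ℤ) : ℤ := e * (if sw then s.2 - p.2 else s.1 - p.1)
/-- second coordinate of a cell -/
def FJ (sw : Bool) (e : ℤ) (p s : ℤ × ℤ) : ℤ := e * (if sw then s.1 - p.1 else s.2 - p.2)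

theorem norm_le (x z : E) : ‖x - z‖ ≤ 2 * max |x 0 - z 0| |x 1 - z 1| := by
  rw [EuclideanSpace.norm_eq, Fin.sum_univ_two]
  have h1 := le_max_left |x 0 - z 0| |x 1 - z 1|
  have h2 := le_max_right |x 0 - z 0| |x 1 - z 1|
  have h0 : 0 ≤ max |x 0 - z 0| |x 1 - z 1| := (abs_nonneg _).trans h1
  rw [Real.sqrt_le_left (by positivity)]
  have e0 : ‖(x - z) 0‖ = |x 0 - z 0| := by simp
  have e1 : ‖(x - z) 1‖ = |x 1 - z 1| := by simp
  rw [e0, e1]
  have g1 := pow_le_pow_left₀ (abs_nonneg (x 0 - z 0)) h1 2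
  have g2 := pow_le_pow_left₀ (abs_nonneg (x 1 - z 1)) h2 2
  nlinarith

theorem mem_aux (e : ℤ) (he : e = 1 ∨ e = -1) (y p s : ℤ) (t : ℝ) :
    |(e : ℝ) * (t - ((p : ℝ) + 1 / 2)) - ((e * (s - p) : ℤ) : ℝ)| ≤ 1 / 2 ↔
      (s : ℝ) ≤ t ∧ t ≤ s + 1 := by
  rcases he with he | he
  · rw [he, abs_le]
    push_cast
    constructor
    · rintro ⟨h1, h2⟩; exact ⟨by linarith, by linarith⟩
    · rintro ⟨h1, h2⟩; exact ⟨by linarith, by linarith⟩
  · rw [he, abs_le]
    push_cast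
    constructor
    · rintro ⟨h1, h2⟩; exact ⟨by linarith, by linarith⟩
    · rintro ⟨h1, h2⟩; exact ⟨by linarith, by linarith⟩

theorem abs_e (e : ℤ) (he : e = 1 ∨ e = -1) (y : ℝ) : |(e : ℝ) * y| = |y| := by
  rcases he with he | he <;> rw [he] <;> simp [abs_mul]

theorem frame (sw : Bool) (e1 e2 : ℤ) (h1 : e1 = 1 ∨ e1 = -1) (h2 : e2 = 1 ∨ e2 = -1)
    (p : ℤ × ℤ) : Sf (ctr p) (fu sw e1 p) (fv sw e2 p) (FI sw e1 p) (FJ sw e2 p) := by
  cases sw
  · refine ⟨⟨?_, ?_, ?_, ?_, ?_⟩, ?_, ?_⟩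
    · unfold fu; simp only [Bool.false_eq_true, if_false]; fun_prop
    · unfold fv; simp only [Bool.false_eq_true, if_false]; fun_prop
    · intro t x
      simp only [fu, Bool.false_eq_true, if_false, PiLp.add_apply, PiLp.smul_apply, PiLp.sub_apply,
        smul_eq_mul, ctr0]
      ring
    · intro t x
      simp only [fv, Bool.false_eq_true, if_false, PiLp.add_apply, PiLp.smul_apply, PiLp.sub_apply,
        smul_eq_mul, ctr1]
      ring
    · intro x
      simp only [fu, fv, Bool.false_eq_true, if_false]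
      rw [abs_e e1 h1, abs_e e2 h2]
      exact norm_le x (ctr p)
    · intro s x
      simp only [fu, fv, FI, FJ, Bool.false_eq_true, if_false]
      rw [mem_aux e1 h1 0, mem_aux e2 h2 0]
      simp only [sq, mem_ofPred_eq]
      tauto
    · intro s t hs ht
      simp only [FI, FJ, Bool.false_eq_true, if_false] at hs ht
      have a1 : s.1 = t.1 := by rcases h1 with h | h <;> rw [h] at hs <;> omega
      have a2 : s.2 = t.2 := by rcases h2 with h | h <;> rw [h] at ht <;> omega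
      exact Prod.ext a1 a2
  · refine ⟨⟨?_, ?_, ?_, ?_, ?_⟩, ?_, ?_⟩
    · unfold fu; simp only [if_true]; fun_prop
    · unfold fv; simp only [if_true]; fun_prop
    · intro t x
      simp only [fu, if_true, PiLp.add_apply, PiLp.smul_apply, PiLp.sub_apply,
        smul_eq_mul, ctr1]
      ring
    · intro t x
      simp only [fv, if_true, PiLp.add_apply, PiLp.smul_apply, PiLp.sub_apply,
        smul_eq_mul, ctr0]
      ring
    · intro x
      simp only [fu, fv, if_true]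
      rw [abs_e e1 h1, abs_e e2 h2, max_comm]
      exact norm_le x (ctr p)
    · intro s x
      simp only [fu, fv, FI, FJ, if_true]
      rw [mem_aux e1 h1 0, mem_aux e2 h2 0]
      simp only [sq, mem_ofPred_eq]
      tauto
    · intro s t hs ht
      simp only [FI, FJ, if_true] at hs ht
      have a1 : s.2 = t.2 := by rcases h1 with h | h <;> rw [h] at hs <;> omega
      have a2 : s.1 = t.1 := by rcases h2 with h | h <;> rw [h] at ht <;> omega
      exact Prod.ext a2 a1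

/-- test for attaching along one edge -/
def t1 (sw : Bool) (e1 e2 : ℤ) (p q : ℤ × ℤ) (S : List (ℤ × ℤ)) : Bool :=
  S.contains p && (FI sw e1 p q == 0) && (FJ sw e2 p q == 1) &&
    S.all fun s => !((FI sw e1 p s == 0 || FI sw e1 p s == 1 || FI sw e1 p s == -1) &&
      (FJ sw e2 p s == 1 || FJ sw e2 p s == 2))

/-- test for attaching at a corner -/
def t2 (e1 e2 : ℤ) (q : ℤ × ℤ) (S : List (ℤ × ℤ)) : Bool :=
  S.contains (q.1 - e1, q.2 - e2) && S.contains (q.1 - e1, q.2) && S.contains (q.1, q.2 - e2) &&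
    S.all fun s => !((FI false e1 (q.1 - e1, q.2 - e2) s == 1 ||
      FI false e1 (q.1 - e1, q.2 - e2) s == 2) &&
      (FJ false e2 (q.1 - e1, q.2 - e2) s == 1 || FJ false e2 (q.1 - e1, q.2 - e2) s == 2))

theorem of_t1 {sw : Bool} {e1 e2 : ℤ} (h1 : e1 = 1 ∨ e1 = -1) (h2 : e2 = 1 ∨ e2 = -1)
    {p q : ℤ × ℤ} {S : List (ℤ × ℤ)} (h : t1 sw e1 e2 p q S = true) :
    Nonempty (un (q :: S) ≃ₜ un S) := by
  unfold t1 at h
  simp only [Bool.and_eq_true, List.contains_iff_mem, beq_iff_eq, List.all_eq_true,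
    Bool.not_eq_true', Bool.and_eq_false_iff, Bool.or_eq_false_iff, beq_eq_false_iff_ne] at h
  obtain ⟨⟨⟨a1, a2⟩, a3⟩, a4⟩ := h
  refine step1 (frame sw e1 e2 h1 h2 p) S p q a1 ?_ ?_ a2 a3 ?_
  · unfold FI; split_ifs <;> simp
  · unfold FJ; split_ifs <;> simp
  · intro s hs hn
    have := a4 s hs
    omega

theorem of_t2 {e1 e2 : ℤ} (h1 : e1 = 1 ∨ e1 = -1) (h2 : e2 = 1 ∨ e2 = -1)
    {q : ℤ × ℤ} {S : List (ℤ × ℤ)} (h : t2 e1 e2 q S = true) :
    Nonempty (un (q :: S) ≃ₜ un S) := by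
  unfold t2 at h
  simp only [Bool.and_eq_true, List.contains_iff_mem, List.all_eq_true,
    Bool.not_eq_true', Bool.and_eq_false_iff, Bool.or_eq_false_iff, beq_eq_false_iff_ne] at h
  obtain ⟨⟨⟨a1, a2⟩, a3⟩, a4⟩ := h
  refine step2 (frame false e1 e2 h1 h2 (q.1 - e1, q.2 - e2)) S (q.1 - e1, q.2 - e2)
    (q.1 - e1, q.2) (q.1, q.2 - e2) q a1 a2 a3 ?_ ?_ ?_ ?_ ?_ ?_ ?_ ?_ ?_
  · simp [FI]
  · simp [FJ]
  · simp [FI]
  · rcases h2 with h | h <;> simp [FJ, h]
  · rcases h1 with h | h <;> simp [FI, h]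
  · simp [FJ]
  · rcases h1 with h | h <;> simp [FI, h]
  · rcases h2 with h | h <;> simp [FJ, h]
  · intro s hs hn
    have := a4 s hs
    omega

/-- one step of the test -/
def stp (S : List (ℤ × ℤ)) (q : ℤ × ℤ) (c : ℕ) : Bool :=
  match c with
  | 0 => t1 false 1 1 (q.1, q.2 - 1) q S
  | 1 => t1 false 1 (-1) (q.1, q.2 + 1) q S
  | 2 => t1 true 1 1 (q.1 - 1, q.2) q S
  | 3 => t1 true 1 (-1) (q.1 + 1, q.2) q S
  | 4 => t2 1 1 q S
  | 5 => t2 (-1) 1 q S
  | 6 => t2 (-1) (-1) q S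
  | 7 => t2 1 (-1) q S
  | _ => false

theorem of_stp {S : List (ℤ × ℤ)} {q : ℤ × ℤ} {c : ℕ} (h : stp S q c = true) :
    Nonempty (un (q :: S) ≃ₜ un S) := by
  unfold stp at h
  split at h
  · exact of_t1 (Or.inl rfl) (Or.inl rfl) h
  · exact of_t1 (Or.inl rfl) (Or.inr rfl) h
  · exact of_t1 (Or.inl rfl) (Or.inl rfl) h
  · exact of_t1 (Or.inl rfl) (Or.inr rfl) h
  · exact of_t2 (Or.inl rfl) (Or.inl rfl) h
  · exact of_t2 (Or.inr rfl) (Or.inl rfl) h
  · exact of_t2 (Or.inr rfl) (Or.inr rfl) h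
  · exact of_t2 (Or.inl rfl) (Or.inr rfl) h
  · exact absurd h (by simp)

/-- The test: the list of cells with codes, last cell first. -/
def chk : List ((ℤ × ℤ) × ℕ) → Bool
  | [] => false
  | [_] => true
  | q :: x :: S => stp ((x :: S).map Prod.fst) q.1 q.2 && chk (x :: S)

theorem sq_convex (c : ℤ × ℤ) : Convex ℝ (sq c) := by
  intro x hx y hy a b ha hb hab
  obtain ⟨h1, h2, h3, h4⟩ := hx
  obtain ⟨k1, k2, k3, k4⟩ := hy
  have e0 : (a • x + b • y) 0 = a * x 0 + b * y 0 := by simp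
  have e1 : (a • x + b • y) 1 = a * x 1 + b * y 1 := by simp
  have lo : ∀ c s t : ℝ, c ≤ s → c ≤ t → c ≤ a * s + b * t := by
    intro c s t hs ht
    have p1 := mul_le_mul_of_nonneg_left hs ha
    have p2 := mul_le_mul_of_nonneg_left ht hb
    have p3 : c = a * c + b * c := by rw [← add_mul, hab, one_mul]
    linarith
  have up : ∀ c s t : ℝ, s ≤ c → t ≤ c → a * s + b * t ≤ c := by
    intro c s t hs ht
    have p1 := mul_le_mul_of_nonneg_left hs ha
    have p2 := mul_le_mul_of_nonneg_left ht hb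
    have p3 : c = a * c + b * c := by rw [← add_mul, hab, one_mul]
    linarith
  refine ⟨?_, ?_, ?_, ?_⟩
  · rw [e0]; exact lo _ _ _ h1 k1
  · rw [e0]; exact up _ _ _ h2 k2
  · rw [e1]; exact lo _ _ _ h3 k3
  · rw [e1]; exact up _ _ _ h4 k4

theorem sq_disk (c : ℤ × ℤ) : Nonempty (sq c ≃ₜ Metric.closedBall (0 : E) 1) := by
  have hint : (interior (sq c)).Nonempty := by
    refine ⟨ctr c, ?_⟩
    rw [mem_interior]
    refine ⟨({x : E | (c.1 : ℝ) < x 0} ∩ {x : E | x 0 < c.1 + 1}) ∩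
      ({x : E | (c.2 : ℝ) < x 1} ∩ {x : E | x 1 < c.2 + 1}), ?_, ?_, ?_⟩
    · rintro x ⟨⟨h1, h2⟩, h3, h4⟩
      exact ⟨le_of_lt h1, le_of_lt h2, le_of_lt h3, le_of_lt h4⟩
    · exact ((isOpen_lt continuous_const c0).inter (isOpen_lt c0 continuous_const)).inter
        ((isOpen_lt continuous_const c1).inter (isOpen_lt c1 continuous_const))
    · refine ⟨⟨?_, ?_⟩, ?_, ?_⟩
      · show (c.1 : ℝ) < ctr c 0
        rw [ctr0]; linarith
      · show ctr c 0 < (c.1 : ℝ) + 1
        rw [ctr0]; linarith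
      · show (c.2 : ℝ) < ctr c 1
        rw [ctr1]; linarith
      · show ctr c 1 < (c.2 : ℝ) + 1
        rw [ctr1]; linarith
  have hbd : Bornology.IsBounded (sq c) := by
    rw [isBounded_iff_subset_closedBall (ctr c)]
    refine ⟨1, fun x hx => ?_⟩
    rw [mem_closedBall, dist_eq_norm]
    refine (norm_le x (ctr c)).trans ?_
    obtain ⟨h1, h2, h3, h4⟩ := hx
    have a1 : |x 0 - ctr c 0| ≤ 1 / 2 := by
      rw [ctr0, abs_le]; exact ⟨by linarith, by linarith⟩
    have a2 : |x 1 - ctr c 1| ≤ 1 / 2 := by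
      rw [ctr1, abs_le]; exact ⟨by linarith, by linarith⟩
    have := max_le a1 a2
    linarith
  obtain ⟨h, _, h2, _⟩ :=
    exists_homeomorph_image_interior_closure_frontier_eq_unitBall (sq_convex c) hint hbd
  rw [(sq_closed c).closure_eq] at h2
  exact ⟨(h.image (sq c)).trans (Homeomorph.setCongr h2)⟩

theorem un_disk : ∀ l : List ((ℤ × ℤ) × ℕ), chk l = true →
    Nonempty (un (l.map Prod.fst) ≃ₜ Metric.closedBall (0 : E) 1)
  | [], h => absurd h (by simp [chk])
  | [q], _ => by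
    have e : un ([q].map Prod.fst) = sq q.1 := by
      ext x; simp [un]
    rw [e]; exact sq_disk q.1
  | q :: x :: S, h => by
    unfold chk at h
    rw [Bool.and_eq_true] at h
    obtain ⟨e1⟩ := of_stp h.1
    obtain ⟨e2⟩ := un_disk (x :: S) h.2
    exact ⟨e1.trans e2⟩

/-- **Criterion.** A list of cells which passes the test is a closed disk. -/
theorem disk_of_chk (l : List ((ℤ × ℤ) × ℕ)) (h : chk l = true) (T : Set E)
    (hT : ∀ x, x ∈ T ↔ ∃ c ∈ l.map Prod.fst, (c.1 : ℝ) ≤ x 0 ∧ x 0 ≤ c.1 + 1 ∧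
      (c.2 : ℝ) ≤ x 1 ∧ x 1 ≤ c.2 + 1) :
    Nonempty (T ≃ₜ Metric.closedBall (0 : EuclideanSpace ℝ (Fin 2)) 1) := by
  have e : T = un (l.map Prod.fst) := by
    ext x; rw [hT]; rfl
  rw [e]; exact un_disk l h

end DiskPoly
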