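import Mathlib

/-!
# Polyominoes which are closed disks, part 1: radial maps and gluing

`DiskPoly.glue`: if `A` is closed and `B = {g ≤ 1}`, `B' = {h ≤ 1}` are star-shaped sets given by
gauge functions which agree on `A ∩ B`, then `A ∪ B` and `A ∪ B'` are homeomorphic.
-/

set_option autoImplicit false

namespace DiskPoly

open Set Metric

/-- The plane. -/
abbrev E := EuclideanSpace ℝ (Fin 2)

/-- A gauge function in two coordinates. -/
structure Ga (g : ℝ → ℝ → ℝ) : Prop where
  cont : Continuous fun p : ℝ × ℝ => g p.1 p.2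
  hom : ∀ t u v : ℝ, 0 ≤ t → g (t * u) (t * v) = t * g u v
  lo : ∀ u v : ℝ, 2 / 3 * max |u| |v| ≤ g u v
  hi : ∀ u v : ℝ, g u v ≤ 2 * max |u| |v|

/-- A frame with origin `z` and coordinates `u`, `v`. -/
structure Fr (z : E) (u v : E → ℝ) : Prop where
  cu : Continuous u
  cv : Continuous v
  su : ∀ (t : ℝ) (x : E), u (z + t • (x - z)) = t * u x
  sv : ∀ (t : ℝ) (x : E), v (z + t • (x - z)) = t * v x
  nm : ∀ x, ‖x - z‖ ≤ 2 * max |u x| |v x|

/-- The radial map with centre `z` which takes `{g ≤ 1}` onto `{h ≤ 1}`. -/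
noncomputable def Ph (z : E) (u v : E → ℝ) (g h : ℝ → ℝ → ℝ) (x : E) : E :=
  z + (g (u x) (v x) / h (u x) (v x)) • (x - z)

variable {z : E} {u v : E → ℝ} {g h : ℝ → ℝ → ℝ}

theorem Fr.pos (F : Fr z u v) {x : E} (hx : x ≠ z) : 0 < max |u x| |v x| := by
  have h1 : 0 < ‖x - z‖ := norm_pos_iff.mpr (sub_ne_zero.mpr hx)
  have h2 := F.nm x
  linarith

theorem Fr.gpos (F : Fr z u v) (hg : Ga g) {x : E} (hx : x ≠ z) : 0 < g (u x) (v x) := by
  have h1 := F.pos hx
  have h2 := hg.lo (u x) (v x)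
  linarith

theorem Ph_z : Ph z u v g h z = z := by simp [Ph]

theorem Ph_fix (F : Fr z u v) (hg : Ga g) {x : E} (e : g (u x) (v x) = h (u x) (v x)) :
    Ph z u v g h x = x := by
  by_cases hx : x = z
  · rw [hx]; exact Ph_z
  · have h1 := F.gpos hg hx
    have h2 : g (u x) (v x) / h (u x) (v x) = 1 := by
      rw [← e]; exact div_self h1.ne'
    unfold Ph
    rw [h2, one_smul]; abel

theorem Ph_cont (F : Fr z u v) (hg : Ga g) (hh : Ga h) : Continuous (Ph z u v g h) := by
  rw [continuous_iff_continuousAt]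
  intro x
  by_cases hx : x = z
  · subst hx
    refine continuousAt_of_locally_lipschitz (r := 1) one_pos 3 ?_
    intro y _
    rw [Ph_z, dist_eq_norm, dist_eq_norm]
    unfold Ph
    rw [add_sub_cancel_left, norm_smul]
    by_cases hy : y = x
    · subst hy; simp
    · have h0 := F.pos hy
      have h1 := F.gpos hg hy
      have h2 := F.gpos hh hy
      have h3 := hg.hi (u y) (v y)
      have h4 := hh.lo (u y) (v y)
      have h5 : ‖g (u y) (v y) / h (u y) (v y)‖ ≤ 3 := by
        rw [Real.norm_eq_abs, abs_of_pos (div_pos h1 h2), div_le_iff₀ h2]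
        linarith
      exact mul_le_mul_of_nonneg_right h5 (norm_nonneg _)
  · have h2 := F.gpos hh hx
    have hu := F.cu.continuousAt (x := x)
    have hv := F.cv.continuousAt (x := x)
    have c1 : ContinuousAt (fun y => g (u y) (v y)) x :=
      (hg.cont.comp (F.cu.prodMk F.cv)).continuousAt
    have c2 : ContinuousAt (fun y => h (u y) (v y)) x :=
      (hh.cont.comp (F.cu.prodMk F.cv)).continuousAt
    exact continuousAt_const.add ((c1.div c2 h2.ne').smul (continuousAt_id.sub continuousAt_const))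

theorem Ph_h (F : Fr z u v) (hg : Ga g) (hh : Ga h) (x : E) :
    h (u (Ph z u v g h x)) (v (Ph z u v g h x)) = g (u x) (v x) := by
  by_cases hx : x = z
  · subst hx
    rw [Ph_z]
    have h1 : u x = 0 := by
      have := F.su 0 x
      simpa using this
    have h2 : v x = 0 := by
      have := F.sv 0 x
      simpa using this
    have h3 := hg.hom 0 0 0 le_rfl
    have h4 := hh.hom 0 0 0 le_rfl
    rw [h1, h2]
    simp only [zero_mul, mul_zero] at h3 h4
    rw [h3, h4]
  · have h1 := F.gpos hg hx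
    have h2 := F.gpos hh hx
    unfold Ph
    rw [F.su, F.sv, hh.hom _ _ _ (div_pos h1 h2).le, div_mul_cancel₀ _ h2.ne']

theorem Ph_inv (F : Fr z u v) (hg : Ga g) (hh : Ga h) (x : E) :
    Ph z u v h g (Ph z u v g h x) = x := by
  by_cases hx : x = z
  · subst hx
    rw [Ph_z, Ph_z]
  · have h1 := F.gpos hg hx
    have h2 := F.gpos hh hx
    have e1 := Ph_h F hg hh x
    have hk : 0 < g (u x) (v x) / h (u x) (v x) := div_pos h1 h2
    have e2 : g (u (Ph z u v g h x)) (v (Ph z u v g h x)) =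
        g (u x) (v x) / h (u x) (v x) * g (u x) (v x) := by
      have a1 : u (Ph z u v g h x) = g (u x) (v x) / h (u x) (v x) * u x := F.su _ x
      have a2 : v (Ph z u v g h x) = g (u x) (v x) / h (u x) (v x) * v x := F.sv _ x
      rw [a1, a2, hg.hom _ _ _ hk.le]
    have e3 : Ph z u v g h x - z = (g (u x) (v x) / h (u x) (v x)) • (x - z) := by
      unfold Ph; abel
    have e4 : Ph z u v h g (Ph z u v g h x) =
        z + (h (u (Ph z u v g h x)) (v (Ph z u v g h x)) /
          g (u (Ph z u v g h x)) (v (Ph z u v g h x))) • (Ph z u v g h x - z) := rfl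
    rw [e4, e1, e2, e3, smul_smul]
    have e5 : g (u x) (v x) / (g (u x) (v x) / h (u x) (v x) * g (u x) (v x)) *
        (g (u x) (v x) / h (u x) (v x)) = 1 := by
      field_simp
    rw [e5, one_smul]; abel

open Classical in
/-- The glued map. -/
noncomputable def pp (z : E) (u v : E → ℝ) (g h : ℝ → ℝ → ℝ) (x : E) : E :=
  if g (u x) (v x) ≤ 1 then Ph z u v g h x else x

theorem pp_A {A : Set E} (F : Fr z u v) (hg : Ga g)
    (H : ∀ x ∈ A, g (u x) (v x) ≤ 1 → g (u x) (v x) = h (u x) (v x)) {x : E} (hx : x ∈ A) :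
    pp z u v g h x = x := by
  unfold pp
  split_ifs with h1
  · exact Ph_fix F hg (H x hx h1)
  · rfl

theorem pp_B {x : E} (hx : g (u x) (v x) ≤ 1) : pp z u v g h x = Ph z u v g h x := by
  unfold pp
  rw [if_pos hx]

theorem pp_cont {A : Set E} (hA : IsClosed A) (F : Fr z u v) (hg : Ga g) (hh : Ga h)
    (H : ∀ x ∈ A, g (u x) (v x) ≤ 1 → g (u x) (v x) = h (u x) (v x)) :
    ContinuousOn (pp z u v g h) (A ∪ {x | g (u x) (v x) ≤ 1}) := by
  refine ContinuousOn.union_of_isClosed ?_ ?_ hA ?_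
  · exact continuousOn_id.congr fun x hx => pp_A F hg H hx
  · exact (Ph_cont F hg hh).continuousOn.congr fun x hx => pp_B hx
  · exact isClosed_le (hg.cont.comp (F.cu.prodMk F.cv)) continuous_const

theorem pp_maps {A : Set E} (F : Fr z u v) (hg : Ga g) (hh : Ga h)
    (H : ∀ x ∈ A, g (u x) (v x) ≤ 1 → g (u x) (v x) = h (u x) (v x)) {x : E}
    (hx : x ∈ A ∪ {x | g (u x) (v x) ≤ 1}) :
    pp z u v g h x ∈ A ∪ {x | h (u x) (v x) ≤ 1} := by
  rcases hx with hx | hx
  · left; rw [pp_A F hg H hx]; exact hx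
  · right
    rw [pp_B hx]
    show h _ _ ≤ 1
    rw [Ph_h F hg hh]
    exact hx

theorem pp_inv {A : Set E} (F : Fr z u v) (hg : Ga g) (hh : Ga h)
    (H : ∀ x ∈ A, g (u x) (v x) ≤ 1 → g (u x) (v x) = h (u x) (v x))
    (H' : ∀ x ∈ A, h (u x) (v x) ≤ 1 → h (u x) (v x) = g (u x) (v x)) {x : E}
    (hx : x ∈ A ∪ {x | g (u x) (v x) ≤ 1}) :
    pp z u v h g (pp z u v g h x) = x := by
  rcases hx with hx | hx
  · rw [pp_A F hg H hx, pp_A F hh H' hx]
  · rw [pp_B hx, pp_B, Ph_inv F hg hh]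
    rw [Ph_h F hg hh]
    exact hx

theorem glue {A : Set E} (hA : IsClosed A) (F : Fr z u v) (hg : Ga g) (hh : Ga h)
    (H : ∀ x ∈ A, g (u x) (v x) ≤ 1 → g (u x) (v x) = h (u x) (v x))
    (H' : ∀ x ∈ A, h (u x) (v x) ≤ 1 → g (u x) (v x) = h (u x) (v x)) :
    Nonempty ((A ∪ {x | g (u x) (v x) ≤ 1} : Set E) ≃ₜ (A ∪ {x | h (u x) (v x) ≤ 1} : Set E)) := by
  have H'' : ∀ x ∈ A, h (u x) (v x) ≤ 1 → h (u x) (v x) = g (u x) (v x) :=
    fun x hx h1 => (H' x hx h1).symm
  refine ⟨{ toFun := fun p => ⟨pp z u v g h p, pp_maps F hg hh H p.2⟩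
            invFun := fun p => ⟨pp z u v h g p, pp_maps F hh hg H'' p.2⟩
            left_inv := fun p => Subtype.ext (pp_inv F hg hh H H'' p.2)
            right_inv := fun p => Subtype.ext (pp_inv F hh hg H'' H p.2)
            continuous_toFun := ?_
            continuous_invFun := ?_ }⟩
  · exact (continuousOn_iff_continuous_domRestrict.mp (pp_cont hA F hg hh H)).subtype_mk _
  · exact (continuousOn_iff_continuous_domRestrict.mp (pp_cont hA F hh hg H'')).subtype_mk _

end DiskPoly
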