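import Pool.Agent.DiskPoly.Basic

/-!
# Polyominoes which are closed disks, part 2: attaching one square
-/

set_option autoImplicit false

namespace DiskPoly

open Set Metric

/-- The closed unit square with lower left corner `c`. -/
def sq (c : ℤ × ℤ) : Set E :=
  {x | (c.1 : ℝ) ≤ x 0 ∧ x 0 ≤ c.1 + 1 ∧ (c.2 : ℝ) ≤ x 1 ∧ x 1 ≤ c.2 + 1}

/-- The union of the squares of a list. -/
def un (S : List (ℤ × ℤ)) : Set E := {x | ∃ c ∈ S, x ∈ sq c}

theorem c0 : Continuous fun x : E => x 0 := by fun_prop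
theorem c1 : Continuous fun x : E => x 1 := by fun_prop

theorem sq_closed (c : ℤ × ℤ) : IsClosed (sq c) := by
  have h : sq c = ({x : E | (c.1 : ℝ) ≤ x 0} ∩ {x : E | x 0 ≤ c.1 + 1}) ∩
      ({x : E | (c.2 : ℝ) ≤ x 1} ∩ {x : E | x 1 ≤ c.2 + 1}) := by
    ext x
    simp only [sq, mem_ofPred_eq, mem_inter_iff]
    tauto
  rw [h]
  exact ((isClosed_le continuous_const c0).inter (isClosed_le c0 continuous_const)).inter
    ((isClosed_le continuous_const c1).inter (isClosed_le c1 continuous_const))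

theorem un_closed (S : List (ℤ × ℤ)) : IsClosed (un S) := by
  induction S with
  | nil =>
    have : un [] = ∅ := by ext x; simp [un]
    rw [this]; exact isClosed_empty
  | cons c S ih =>
    have : un (c :: S) = sq c ∪ un S := by
      ext x; simp [un]
    rw [this]; exact (sq_closed c).union ih

/-- square -/
noncomputable def gs (u v : ℝ) : ℝ := 2 * max |u| |v|
/-- square and the square above it -/
noncomputable def gr (u v : ℝ) : ℝ := max (2 * |u|) (max (-(2 * v)) (2 / 3 * v))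
/-- block of four squares -/
noncomputable def gb (u v : ℝ) : ℝ :=
  max (max (-(2 * u)) (-(2 * v))) (max (2 / 3 * u) (2 / 3 * v))
/-- three squares -/
noncomputable def gl (u v : ℝ) : ℝ := min (gr u v) (gr v u)

theorem gs_Ga : Ga gs where
  cont := by unfold gs; fun_prop
  hom t u v ht := by
    unfold gs
    rw [abs_mul, abs_mul, abs_of_nonneg ht, ← mul_max_of_nonneg _ _ ht]; ring
  lo u v := by
    unfold gs
    have : 0 ≤ max |u| |v| := (abs_nonneg u).trans (le_max_left _ _)
    linarith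
  hi u v := le_rfl

theorem gr_Ga : Ga gr where
  cont := by unfold gr; fun_prop
  hom t u v ht := by
    unfold gr
    rw [abs_mul, abs_of_nonneg ht, mul_max_of_nonneg _ _ ht, mul_max_of_nonneg _ _ ht]
    congr 1
    · ring
    · congr 1 <;> ring
  lo u v := by
    unfold gr
    rcases le_total |u| |v| with h | h
    · rw [max_eq_right h]
      rcases le_total 0 v with h2 | h2
      · rw [abs_of_nonneg h2]
        exact (le_max_right _ _).trans (le_max_right _ _)
      · rw [abs_of_nonpos h2]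
        refine le_trans ?_ ((le_max_left _ _).trans (le_max_right _ _))
        linarith
    · rw [max_eq_left h]
      refine le_trans ?_ (le_max_left _ _)
      have := abs_nonneg u
      linarith
  hi u v := by
    unfold gr
    have h1 := le_max_left |u| |v|
    have h2 := le_max_right |u| |v|
    have h3 := neg_abs_le v
    have h4 := le_abs_self v
    have h5 := abs_nonneg v
    refine max_le ?_ (max_le ?_ ?_) <;> linarith

theorem gb_Ga : Ga gb where
  cont := by unfold gb; fun_prop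
  hom t u v ht := by
    unfold gb
    rw [mul_max_of_nonneg _ _ ht, mul_max_of_nonneg _ _ ht, mul_max_of_nonneg _ _ ht]
    congr 1 <;> congr 1 <;> ring
  lo u v := by
    unfold gb
    rcases le_total |u| |v| with h | h
    · rw [max_eq_right h]
      rcases le_total 0 v with h2 | h2
      · rw [abs_of_nonneg h2]
        exact (le_max_right _ _).trans (le_max_right _ _)
      · rw [abs_of_nonpos h2]
        refine le_trans ?_ ((le_max_right _ _).trans (le_max_left _ _))
        linarith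
    · rw [max_eq_left h]
      rcases le_total 0 u with h2 | h2
      · rw [abs_of_nonneg h2]
        exact (le_max_left _ _).trans (le_max_right _ _)
      · rw [abs_of_nonpos h2]
        refine le_trans ?_ ((le_max_left _ _).trans (le_max_left _ _))
        linarith
  hi u v := by
    unfold gb
    have h1 := le_max_left |u| |v|
    have h2 := le_max_right |u| |v|
    have h3 := neg_abs_le v
    have h4 := le_abs_self v
    have h5 := abs_nonneg v
    have h6 := neg_abs_le u
    have h7 := le_abs_self u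
    have h8 := abs_nonneg u
    refine max_le (max_le ?_ ?_) (max_le ?_ ?_) <;> linarith

theorem gl_Ga : Ga gl where
  cont := by unfold gl gr; fun_prop
  hom t u v ht := by
    unfold gl
    rw [gr_Ga.hom t u v ht, gr_Ga.hom t v u ht, mul_min_of_nonneg _ _ ht]
  lo u v := by
    unfold gl
    refine le_min (gr_Ga.lo u v) ?_
    rw [max_comm]; exact gr_Ga.lo v u
  hi u v := (min_le_left _ _).trans (gr_Ga.hi u v)

theorem gs_le {u v : ℝ} : gs u v ≤ 1 ↔ |u| ≤ 1 / 2 ∧ |v| ≤ 1 / 2 := by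
  unfold gs
  constructor
  · intro h
    have h1 := le_max_left |u| |v|
    have h2 := le_max_right |u| |v|
    exact ⟨by linarith, by linarith⟩
  · rintro ⟨h1, h2⟩
    have := max_le h1 h2
    linarith

theorem gr_le {u v : ℝ} : gr u v ≤ 1 ↔
    (|u| ≤ 1 / 2 ∧ |v| ≤ 1 / 2) ∨ (|u| ≤ 1 / 2 ∧ |v - 1| ≤ 1 / 2) := by
  unfold gr
  rw [max_le_iff, max_le_iff]
  constructor
  · rintro ⟨h1, h2, h3⟩
    rcases le_total v (1 / 2) with h4 | h4
    · left; exact ⟨by linarith, abs_le.mpr ⟨by linarith, h4⟩⟩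
    · right; exact ⟨by linarith, abs_le.mpr ⟨by linarith, by linarith⟩⟩
  · rintro (⟨h1, h2⟩ | ⟨h1, h2⟩)
    · have := abs_le.mp h2
      exact ⟨by linarith, by linarith, by linarith⟩
    · have := abs_le.mp h2
      exact ⟨by linarith, by linarith, by linarith⟩

theorem gl_le {u v : ℝ} : gl u v ≤ 1 ↔ gr u v ≤ 1 ∨ gr v u ≤ 1 := min_le_iff

theorem gb_le {u v : ℝ} : gb u v ≤ 1 ↔ gl u v ≤ 1 ∨ (|u - 1| ≤ 1 / 2 ∧ |v - 1| ≤ 1 / 2) := by
  rw [gl_le, gr_le, gr_le]
  unfold gb
  simp only [max_le_iff]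
  constructor
  · rintro ⟨⟨h1, h2⟩, h3, h4⟩
    rcases le_total u (1 / 2) with h5 | h5
    · have a1 : |u| ≤ 1 / 2 := abs_le.mpr ⟨by linarith, h5⟩
      rcases le_total v (1 / 2) with h6 | h6
      · exact Or.inl (Or.inl (Or.inl ⟨a1, abs_le.mpr ⟨by linarith, h6⟩⟩))
      · exact Or.inl (Or.inl (Or.inr ⟨a1, abs_le.mpr ⟨by linarith, by linarith⟩⟩))
    · have a1 : |u - 1| ≤ 1 / 2 := abs_le.mpr ⟨by linarith, by linarith⟩
      rcases le_total v (1 / 2) with h6 | h6
      · exact Or.inl (Or.inr (Or.inr ⟨abs_le.mpr ⟨by linarith, h6⟩, a1⟩))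
      · exact Or.inr ⟨a1, abs_le.mpr ⟨by linarith, by linarith⟩⟩
  · intro h
    rcases h with ((⟨h1, h2⟩ | ⟨h1, h2⟩) | (⟨h1, h2⟩ | ⟨h1, h2⟩)) | ⟨h1, h2⟩ <;>
      (have a1 := abs_le.mp h1; have a2 := abs_le.mp h2;
       exact ⟨⟨by linarith, by linarith⟩, by linarith, by linarith⟩)

theorem gr_eq_gs {u v : ℝ} (h : v ≤ |u|) : gr u v = gs u v := by
  unfold gr gs
  have h0 := abs_nonneg u
  rcases le_total |u| |v| with h1 | h1
  · rw [max_eq_right h1]
    rcases le_total 0 v with h2 | h2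
    · have h3 : |v| = v := abs_of_nonneg h2
      have h4 : |u| = v := le_antisymm (by rw [← h3]; exact h1) h
      rw [h3, h4]
      refine le_antisymm (max_le le_rfl (max_le ?_ ?_)) (le_max_left _ _) <;> linarith
    · have h3 : |v| = -v := abs_of_nonpos h2
      rw [h3] at h1 ⊢
      refine le_antisymm (max_le ?_ (max_le ?_ ?_)) ?_
      · linarith
      · linarith
      · linarith
      · refine le_trans ?_ ((le_max_left _ _).trans (le_max_right _ _))
        linarith
  · rw [max_eq_left h1]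
    have h3 := abs_le.mp h1
    refine le_antisymm (max_le le_rfl (max_le ?_ ?_)) (le_max_left _ _)
    · linarith
    · linarith

theorem gr_le_gs (u v : ℝ) : gr u v ≤ gs u v := gr_Ga.hi u v

theorem gb_le_gr (u v : ℝ) : gb u v ≤ gr u v := by
  unfold gb gr
  have h1 := neg_abs_le u
  have h2 := le_abs_self u
  have h0 := abs_nonneg u
  refine max_le (max_le ?_ ?_) (max_le ?_ ?_)
  · refine le_trans ?_ (le_max_left _ _); linarith
  · exact (le_max_left _ _).trans (le_max_right _ _)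
  · refine le_trans ?_ (le_max_left _ _); linarith
  · exact (le_max_right _ _).trans (le_max_right _ _)

theorem gb_comm (u v : ℝ) : gb u v = gb v u := by
  unfold gb
  rw [max_comm (-(2 * u)), max_comm (2 / 3 * u)]

theorem gb_le_gl (u v : ℝ) : gb u v ≤ gl u v :=
  le_min (gb_le_gr u v) (by rw [gb_comm]; exact gb_le_gr v u)

theorem gr_le_gb {u v : ℝ} (h : 3 * u ≤ v) : gr u v ≤ gb u v := by
  unfold gb gr
  refine max_le ?_ (max_le ?_ ?_)
  · rcases le_total 0 u with h2 | h2
    · rw [abs_of_nonneg h2]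
      refine le_trans ?_ ((le_max_right _ _).trans (le_max_right _ _))
      linarith
    · rw [abs_of_nonpos h2]
      refine le_trans ?_ ((le_max_left _ _).trans (le_max_left _ _))
      linarith
  · exact (le_max_right _ _).trans (le_max_left _ _)
  · exact (le_max_right _ _).trans (le_max_right _ _)

theorem gb_eq_gl {u v : ℝ} (h : 3 * u ≤ v ∨ 3 * v ≤ u) : gb u v = gl u v := by
  refine le_antisymm (gb_le_gl u v) ?_
  rcases h with h | h
  · exact (min_le_left _ _).trans (gr_le_gb h)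
  · refine (min_le_right _ _).trans ?_
    rw [gb_comm]; exact gr_le_gb h

/-- A frame adapted to the squares. -/
structure Sf (z : E) (u v : E → ℝ) (I J : ℤ × ℤ → ℤ) : Prop where
  fr : Fr z u v
  mem : ∀ (s : ℤ × ℤ) (x : E), x ∈ sq s ↔ |u x - I s| ≤ 1 / 2 ∧ |v x - J s| ≤ 1 / 2
  inj : ∀ s t : ℤ × ℤ, I s = I t → J s = J t → s = t

variable {z : E} {u v : E → ℝ} {I J : ℤ × ℤ → ℤ}

/-- attaching along one edge -/
theorem step1 (F : Sf z u v I J) (S : List (ℤ × ℤ)) (q' q : ℤ × ℤ) (hq' : q' ∈ S)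
    (h1 : I q' = 0) (h2 : J q' = 0) (h3 : I q = 0) (h4 : J q = 1)
    (hb : ∀ s ∈ S, ¬ ((I s = 0 ∧ (J s = 1 ∨ J s = 2)) ∨
      ((I s = 1 ∨ I s = -1) ∧ (J s = 1 ∨ J s = 2)))) :
    Nonempty (un (q :: S) ≃ₜ un S) := by
  set A : Set E := un (S.filter fun s => s ≠ q') with hA
  have e1 : un (q :: S) = A ∪ {x | gr (u x) (v x) ≤ 1} := by
    ext x
    simp only [un, mem_ofPred_eq, mem_union, hA, List.mem_cons, List.mem_filter, gr_le]
    have m1 := F.mem q' x
    have m2 := F.mem q x
    rw [h1, h2] at m1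
    rw [h3, h4] at m2
    simp only [Int.cast_zero, Int.cast_one, sub_zero] at m1 m2
    rw [← m1, ← m2]
    constructor
    · rintro ⟨c, rfl | hc, hx⟩
      · exact Or.inr (Or.inr hx)
      · by_cases hcq : c = q'
        · subst hcq; exact Or.inr (Or.inl hx)
        · exact Or.inl ⟨c, ⟨hc, by simpa using hcq⟩, hx⟩
    · rintro (⟨c, ⟨hc, _⟩, hx⟩ | hx | hx)
      · exact ⟨c, Or.inr hc, hx⟩
      · exact ⟨q', Or.inr hq', hx⟩
      · exact ⟨q, Or.inl rfl, hx⟩
  have e2 : un S = A ∪ {x | gs (u x) (v x) ≤ 1} := by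
    ext x
    simp only [un, mem_ofPred_eq, mem_union, hA, List.mem_filter, gs_le]
    have m1 := F.mem q' x
    rw [h1, h2] at m1
    simp only [Int.cast_zero, sub_zero] at m1
    rw [← m1]
    constructor
    · rintro ⟨c, hc, hx⟩
      by_cases hcq : c = q'
      · subst hcq; exact Or.inr hx
      · exact Or.inl ⟨c, ⟨hc, by simpa using hcq⟩, hx⟩
    · rintro (⟨c, ⟨hc, _⟩, hx⟩ | hx)
      · exact ⟨c, hc, hx⟩
      · exact ⟨q', hq', hx⟩
  have key : ∀ x ∈ A, gr (u x) (v x) ≤ 1 → gr (u x) (v x) = gs (u x) (v x) := by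
    rintro x ⟨s, hs, hx⟩ hg
    rw [List.mem_filter] at hs
    have hsq : s ≠ q' := by simpa using hs.2
    apply gr_eq_gs
    by_contra hlt
    push Not at hlt
    have m := (F.mem s x).mp hx
    have a1 := abs_le.mp m.1
    have a2 := abs_le.mp m.2
    have hu : |u x| ≤ 1 / 2 := by
      rcases gr_le.mp hg with h | h <;> exact h.1
    have hu' := abs_le.mp hu
    have hv : v x ≤ 3 / 2 := by
      rcases gr_le.mp hg with h | h
      · have := abs_le.mp h.2; linarith
      · have := abs_le.mp h.2; linarith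
    have hv0 : 0 < v x := lt_of_le_of_lt (abs_nonneg _) hlt
    have b1 : (I s : ℝ) < 2 := by linarith
    have b2 : (-2 : ℝ) < I s := by linarith
    have b3 : (J s : ℝ) < 3 := by linarith
    have b4 : (-1 : ℝ) < J s := by linarith
    have b1' : I s < 2 := by exact_mod_cast b1
    have b2' : -2 < I s := by exact_mod_cast b2
    have b3' : J s < 3 := by exact_mod_cast b3
    have b4' : -1 < J s := by exact_mod_cast b4
    have hn := hb s hs.1
    have hJ : J s = 0 := by
      by_contra hJ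
      apply hn
      have : J s = 1 ∨ J s = 2 := by omega
      have : I s = 0 ∨ I s = 1 ∨ I s = -1 := by omega
      tauto
    have hI : I s ≠ 0 := fun hI => hsq (F.inj s q' (by rw [hI, h1]) (by rw [hJ, h2]))
    have hI' : I s = 1 ∨ I s = -1 := by omega
    rw [hJ] at a2
    simp only [Int.cast_zero, sub_zero] at a2
    rcases hI' with hI' | hI'
    · rw [hI'] at a1
      simp only [Int.cast_one] at a1
      have := le_abs_self (u x)
      linarith
    · rw [hI'] at a1
      simp only [Int.cast_neg, Int.cast_one] at a1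
      have := neg_abs_le (u x)
      linarith
  rw [e1, e2]
  exact glue (un_closed _) F.fr gr_Ga gs_Ga key
    (fun x hx h => key x hx ((gr_le_gs _ _).trans h))

/-- attaching at a corner along two edges -/
theorem step2 (F : Sf z u v I J) (S : List (ℤ × ℤ)) (q0 q1 q2 q : ℤ × ℤ)
    (m0 : q0 ∈ S) (m1 : q1 ∈ S) (m2 : q2 ∈ S)
    (a0 : I q0 = 0) (b0 : J q0 = 0) (a1 : I q1 = 0) (b1 : J q1 = 1) (a2 : I q2 = 1) (b2 : J q2 = 0)
    (a3 : I q = 1) (b3 : J q = 1)
    (hb : ∀ s ∈ S, ¬ ((I s = 1 ∧ (J s = 1 ∨ J s = 2)) ∨ (I s = 2 ∧ (J s = 1 ∨ J s = 2)))) :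
    Nonempty (un (q :: S) ≃ₜ un S) := by
  set A : Set E := un (S.filter fun s => s ≠ q0 ∧ s ≠ q1 ∧ s ≠ q2) with hA
  have n0 : ∀ x, x ∈ sq q0 ↔ |u x| ≤ 1 / 2 ∧ |v x| ≤ 1 / 2 := by
    intro x
    have := F.mem q0 x
    rw [a0, b0] at this
    simpa using this
  have n1 : ∀ x, x ∈ sq q1 ↔ |u x| ≤ 1 / 2 ∧ |v x - 1| ≤ 1 / 2 := by
    intro x
    have := F.mem q1 x
    rw [a1, b1] at this
    simpa using this
  have n2 : ∀ x, x ∈ sq q2 ↔ |u x - 1| ≤ 1 / 2 ∧ |v x| ≤ 1 / 2 := by
    intro x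
    have := F.mem q2 x
    rw [a2, b2] at this
    simpa using this
  have n3 : ∀ x, x ∈ sq q ↔ |u x - 1| ≤ 1 / 2 ∧ |v x - 1| ≤ 1 / 2 := by
    intro x
    have := F.mem q x
    rw [a3, b3] at this
    simpa using this
  have gl' : ∀ x, gl (u x) (v x) ≤ 1 ↔ x ∈ sq q0 ∨ x ∈ sq q1 ∨ x ∈ sq q2 := by
    intro x
    rw [gl_le, gr_le, gr_le, n0, n1, n2]
    tauto
  have e2 : un S = A ∪ {x | gl (u x) (v x) ≤ 1} := by
    ext x
    simp only [un, mem_ofPred_eq, mem_union, hA, List.mem_filter, gl']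
    constructor
    · rintro ⟨c, hc, hx⟩
      by_cases h0 : c = q0
      · subst h0; exact Or.inr (Or.inl hx)
      · by_cases h1 : c = q1
        · subst h1; exact Or.inr (Or.inr (Or.inl hx))
        · by_cases h2 : c = q2
          · subst h2; exact Or.inr (Or.inr (Or.inr hx))
          · exact Or.inl ⟨c, ⟨hc, by simp [h0, h1, h2]⟩, hx⟩
    · rintro (⟨c, ⟨hc, _⟩, hx⟩ | hx | hx | hx)
      · exact ⟨c, hc, hx⟩
      · exact ⟨q0, m0, hx⟩
      · exact ⟨q1, m1, hx⟩
      · exact ⟨q2, m2, hx⟩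
  have e1 : un (q :: S) = A ∪ {x | gb (u x) (v x) ≤ 1} := by
    have e3 : un (q :: S) = un S ∪ sq q := by
      ext x; simp [un, or_comm]
    rw [e3, e2]
    ext x
    simp only [mem_union, mem_ofPred_eq, gb_le, n3]
    tauto
  have key : ∀ x ∈ A, gb (u x) (v x) ≤ 1 → gb (u x) (v x) = gl (u x) (v x) := by
    rintro x ⟨s, hs, hx⟩ hg
    rw [List.mem_filter] at hs
    have hsq : s ≠ q0 ∧ s ≠ q1 ∧ s ≠ q2 := by simpa using hs.2
    apply gb_eq_gl
    by_contra hlt
    push Not at hlt
    obtain ⟨l1, l2⟩ := hlt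
    have m := (F.mem s x).mp hx
    have c1 := abs_le.mp m.1
    have c2 := abs_le.mp m.2
    have hg' : u x ≤ 3 / 2 ∧ v x ≤ 3 / 2 := by
      unfold gb at hg
      simp only [max_le_iff] at hg
      exact ⟨by linarith [hg.2.1], by linarith [hg.2.2]⟩
    have b1' : (I s : ℝ) < 3 := by linarith
    have b2' : (-1 : ℝ) < I s := by linarith
    have b3' : (J s : ℝ) < 3 := by linarith
    have b4' : (-1 : ℝ) < J s := by linarith
    have b1'' : I s < 3 := by exact_mod_cast b1'
    have b2'' : -1 < I s := by exact_mod_cast b2'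
    have b3'' : J s < 3 := by exact_mod_cast b3'
    have b4'' : -1 < J s := by exact_mod_cast b4'
    have hn := hb s hs.1
    have k0 : ¬ (I s = 0 ∧ J s = 0) := fun h => hsq.1 (F.inj s q0 (by rw [h.1, a0]) (by rw [h.2, b0]))
    have k1 : ¬ (I s = 0 ∧ J s = 1) :=
      fun h => hsq.2.1 (F.inj s q1 (by rw [h.1, a1]) (by rw [h.2, b1]))
    have k2 : ¬ (I s = 1 ∧ J s = 0) :=
      fun h => hsq.2.2 (F.inj s q2 (by rw [h.1, a2]) (by rw [h.2, b2]))
    have k3 : (I s = 0 ∧ J s = 2) ∨ (I s = 2 ∧ J s = 0) := by omega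
    rcases k3 with ⟨k3, k4⟩ | ⟨k3, k4⟩
    · rw [k3] at c1; rw [k4] at c2
      push_cast at c1 c2
      linarith
    · rw [k3] at c1; rw [k4] at c2
      push_cast at c1 c2
      linarith
  rw [e1, e2]
  exact glue (un_closed _) F.fr gb_Ga gl_Ga key
    (fun x hx h => key x hx ((gb_le_gl _ _).trans h))

end DiskPoly
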